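import Pool.Agent.H99.D2.Fzd
import Pool.Agent.H99.D2.Ree
import Pool.Agent.H18.PN.Stgc
import Pool.Agent.H78.PSQ.Psl

/-!
# Jointly nonfull pairs over one label for each family

`pairf_rec`: at a record, a family of jointly nonfull pairs whose second labels are one label for each
family plus closed polynomials, with natural labels of a grid of windows up to the window of the record.
-/

set_option autoImplicit false

namespace Pool.CR99

open Finset Real MvPolynomial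
open Pool.Agent.H49.Ent Pool.Agent.H32.Dense Pool.STK Pool.KA Pool.KSAT Pool.K2S Pool.PB Pool.GEN
open Pool.S6C Pool.RCD Pool.LA91 Pool.OWN68 Pool.AJW Pool.AJX Pool.CHT Pool.PKG Pool.ALT Pool.PN18
open Pool.V0F (LbU)

/-- A larger family of base labels. -/
theorem nzq_le {m : ℕ} {Ψ Ψ' : Fml m} {c : ℕ → Fin m} {r₀ : ℕ} {κ : Fin m} {K K₁ Ku Kb : ℕ}
    {w v p₁ p₂ e u p a pa₁ pa₂ ea ua pa : ℝ}
    (hle : ∀ (J : ℕ) (F : Fam m J) (A : F.Ω → Prop) (V : Type) (z : PtT F → V) (z' : LnT F → V)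
      (G : V → MvPolynomial (Option (Fin m)) ℝ), Ψ J F A V z z' G → Ψ' J F A V z z' G)
    {J : ℕ} {F : Fam m J} {A : F.Ω → Prop} {V : Type}
    {z : PtT F → V} {z' : LnT F → V} {G : V → MvPolynomial (Option (Fin m)) ℝ}
    (h : NzQ Ψ c r₀ κ K K₁ Ku Kb w v p₁ p₂ e u p a pa₁ pa₂ ea ua pa J F A V z z' G) :
    NzQ Ψ' c r₀ κ K K₁ Ku Kb w v p₁ p₂ e u p a pa₁ pa₂ ea ua pa J F A V z z' G := by
  obtain ⟨V₀, V₁, V₂, z₀, z₀', G₀, P₁, z₁, z₁', G₁, P₂, z₂, z₂', H, f, h1, h2, h3⟩ := h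
  exact ⟨V₀, V₁, V₂, z₀, z₀', G₀, P₁, z₁, z₁', G₁, P₂, z₂, z₂', H, f,
    hle J F A V₀ z₀ z₀' G₀ h1, h2, h3⟩

/-- The second labels of a family over one label for each family. -/
theorem psq_dcpD {m : ℕ} {Ψ₁ : Fml m} {d : ∀ (J : ℕ) (F : Fam m J), LbD F} {c : ℕ → Fin m}
    {r D K : ℕ} {vn v t p₁ p₂ eN uN pN pa₁ pa₂ ea ua pa lam e : ℝ} {E rd p n : ℕ → ℝ}
    {E₀ R₀ P₀ P₀' : ℝ}
    (hΨ : ∀ (J : ℕ) (F : Fam m J) (A : F.Ω → Prop) (V : Type) (z : PtT F → V) (z' : LnT F → V)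
      (G : V → MvPolynomial (Option (Fin m)) ℝ), Ψ₁ J F A V z z' G →
      LbOK F ((range (r + 1)).image c) (c (r + 1)) D ⌊E₀ * J⌋₊ J ⌊vn * J⌋₊ ⌊R₀ * J⌋₊
        ⌊P₀' * J⌋₊ A z z' G) (hP : P₀ - e ≤ P₀') (hvn : vn ≤ v) (hv : v ≤ 1) :
    DcpD (PsQ (Sgl Ψ₁ d) c r D K vn v t p₁ p₂ eN uN pN pa₁ pa₂ ea ua pa lam e E rd p n) d
      ((range r).image c) ((range (r + 1)).image c) (c (r + 1)) (D * max 1 D) vn v E₀ R₀ P₀ e := by
  rintro J F A V C z z' G₁ G₂ cc ⟨g, -, -, -, h4, -, -⟩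
  obtain ⟨V₀, V₁, V₂, z₀, z₀', G₀, P₁, z₁, z₁', G₁', P₂, z₂, z₂', H, f, a1, a2, -⟩ := h4
  have hJ0 : (0 : ℝ) ≤ J := Nat.cast_nonneg J
  have hl := hΨ J F A V₀ z₀ z₀' G₀ a1.1
  obtain ⟨f1, f2⟩ := floorw hvn hv J
  rw [← a1.2]
  refine ⟨hl.mono (Finset.Subset.refl _) ?_ le_rfl le_rfl
      (Nat.floor_le_floor (mul_le_mul_of_nonneg_right hP hJ0)),
    fun y => sbu (c r) (H (f y).2.2) (G₁' (f y).2.1 - G₀ (f y).1), fun y => ?_, fun y => ?_,
    fun ω hω => ?_⟩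
  · calc D = D * 1 := (mul_one D).symm
      _ ≤ D * max 1 D := Nat.mul_le_mul_left D (le_max_left 1 D)
  · refine sbu_deg (c r) (a2.l2.deg _) ?_
    exact (totalDegree_sub _ _).trans (max_le (a2.l1.deg _) (hl.deg _))
  · exact sbu_dep (DpI.sub (a2.l1.dep _) (hl.dep _)) (a2.l2.dep _)
  · dsimp only
    rw [a2.pol]
    unfold nzG
    rw [a2.cod, wz_slam z₀' f1 f2]

/-- **Jointly nonfull pairs over one label for each family**, at a record: a family of pairs whose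
second labels are the label `d J F`, with natural labels of the windows `wv k`, plus closed
polynomials. -/
theorem pairf_rec {r D : ℕ} (hr : 1 ≤ r) {S : PCl (r + 2)} {al : ℝ} {g₀ : ℝ → ℝ}
    {P : List (Fin (r + 2)) × Fin (r + 2) → ℝ → ℝ → ℝ}
    {θ : ℝ} {P₂ : ℕ → List (Fin (r + 2)) × Fin (r + 2) → ℝ → ℝ → ℝ} {θ₂ Eb e₂ : ℕ → ℝ}
    {c : ℕ → Fin (r + 2)} {Pt : ℝ → ℝ → ℝ} {rt : ℝ → ℝ} {h K₀ g : ℝ} {L T : ℕ → ℝ → ℝ → ℝ}
    {Sl : ℕ → ℝ} {κ : ℕ → Kg} {G : Set ℝ} {S₀ N : ℕ} {A V : ℕ → ℝ} {S₂ N' : ℕ} {V' : ℕ → ℝ}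
    {K' ε q t : ℝ} {S₁ : PCl (r + 2)} (hne₁ : S₁.Ne)
    (hs₁ : ∀ (τ : ℝ) (J : ℕ) (F : Fam (r + 2) J) (A : F.Ω → Prop), S₁.St τ J F A → S.St τ J F A)
    (Rc : RecG S₁ al g₀ P θ P₂ θ₂ Eb e₂ c Pt rt h K₀ g L T Sl κ G S₀ N A V S₂ N' V' K' ε q t)
    (hκ : ∀ l < r, κ l = .one) {a b R τ : ℝ} (haE : Sl r = a) (hbE : Sl (r + 1) = b)
    (ha : 1 < a) (hab : a ≤ b) (hR : 0 < R) (hτ : R < τ)
    (hh0 : 0 ≤ h) (hh1 : h ≤ 1) (hε : 0 < ε) (hK₀ : 0 < K₀)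
    (hcu₀ : ∀ w ∈ G, ∃ rd : ℕ → ℝ, (∀ l < r + 1, 0 ≤ rd l) ∧
      Chn S c 0 (r + 1) w w (L r w w) (fun l => L l w w) rd) {e₀ ρ₀ π₀ μ : ℝ} (hμ : 0 < μ)
    (hρ₀ : ρ₀ + μ ≤ 1) (halt₀ : ∀ w ∈ G, |w - g| ≤ μ → AltC S c r L e₀ ρ₀ π₀ μ w)
    (hnear : ∀ x : ℝ, |x| ≤ K' → |t + x * q - g| ≤ μ) (hlab : LabR r D S₁ c L e₀ μ q t N' V')
    {el dl : ℝ} {k₀ : ℕ} (hel : 0 ≤ el) (hdl : 0 ≤ dl) (hdlb : dl ≤ b * Real.log 2)
    (hful : ∀ S' : PCl (r + 2), S'.Ne → SubC S' S → ∀ w₀ : ℝ, 0 < w₀ → w₀ < g →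
      AltE S' ((range (r + 1)).image c) (c (r + 1)) (max D D * max 1 D) e₀ ρ₀ π₀ w₀ →
      ∃ φ : ℝ, b * Real.log 2 - dl ≤ φ ∧ ∀ k ≥ k₀, AltAt S ((range (r + 1)).image c)
        ((range r).image c) (c (r + 1)) (max D D * max 1 D) e₀ ρ₀ π₀ (fun w => L (r + 1) w w) g
        φ el k) (hk₀ : (K₀ + τ) * q ≤ (1 / 2) ^ k₀)
    -- the label `d J F`, with natural labels of the windows `wv k`
    {Ψb : Fml (r + 2)} {vn En Rn Pn Pn' pe e₁ : ℝ}
    (hΨs : ∀ (J : ℕ) (F : Fam (r + 2) J) (A B : F.Ω → Prop) (V : Type)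
      (z : PtT F → V) (z' : LnT F → V) (G : V → MvPolynomial (Option (Fin (r + 2))) ℝ), Sub B A →
      Ψb J F A V z z' G → Ψb J F B V z z' G)
    (hΨl : ∀ (J : ℕ) (F : Fam (r + 2) J) (A : F.Ω → Prop) (V : Type) (z : PtT F → V)
      (z' : LnT F → V) (G : V → MvPolynomial (Option (Fin (r + 2))) ℝ), Ψb J F A V z z' G →
      LbOK F ((range (r + 1)).image c) (c (r + 1)) D ⌊En * J⌋₊ J ⌊vn * J⌋₊ ⌊Rn * J⌋₊
        ⌊Pn' * J⌋₊ A z z' G)
    {n : ℕ} {wv pa₁ pa₂ : ℕ → ℝ} {d : ∀ (J : ℕ) (F : Fam (r + 2) J), LbD F}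
    (hex : Bas S₁ (fun J F A => ∃ (V : Type) (z : PtT F → V) (z' : LnT F → V)
      (G : V → MvPolynomial (Option (Fin (r + 2))) ℝ),
      Sgl (NzE Ψb c r (c (r + 1)) D vn n wv pa₁ pa₂ (fun _ => e₀ - μ / 2)
        (fun k => L r (wv k) (wv k) + μ / 4) (fun k => L (r + 1) (wv k) (wv k) - pe)) d
        J F A V z z' G))
    (hwG : ∀ k < n, wv k ∈ G) {ms : ℝ} (hms0 : 0 < ms)
    (hwy : ∀ y, -τ ≤ y → y ≤ 0 → ∃ k < n, |wv k - (t + y * q)| ≤ ms * q)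
    (hwv : ∃ k < n, wv k = t + -τ * q) (hwt : ∃ k < n, wv k = t)
    (hvn0 : 0 ≤ vn) (hvn : vn + pzD R b * q ≤ t + -τ * q) (hpe : pe ≤ e₁ * q / 2)
    (hPn : Pn - e₁ * q ≤ Pn') (hPn1 : L (r + 1) vn vn - q ≤ Pn)
    -- the windows
    (hWv : ∃ j < N', V' j = -τ) (hWt : ∃ j < N', V' j = 0) (hWx : ∃ j < N', V' j = -(K₀ + 1))
    {X φ kf ℓ : ℝ} (hWj : ∀ k ≤ r, ∃ j < N', V' j = jfV r (-τ) X k)
    -- the numbers
    (hX1 : 2 * (6 * τ) ≤ X) (hX2 : 2 * (b * R) + 2 ≤ X)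
    (hXv : τ + b * R + 2 * (r + 1) * φ + 2 ≤ X)
    (hX3 : 32 * (r + 1) * φ ≤ X) (hkf1 : 3 ^ r * X ≤ kf)
    (hkf2 : b * R + 2 * (r + 1) * φ + 1 ≤ kf) (hℓ1 : kf + τ ≤ ℓ)
    (hℓ2 : 3 ^ r * X + R + 1 ≤ ℓ) (hℓ3 : b * R + R + 1 ≤ ℓ) (hK1 : ℓ + 1 ≤ K')
    (hK2 : τ + 3 ^ r * X ≤ K') (hK3 : b * τ + b * R + 2 ≤ K') (hK5 : τ + K₀ + 2 ≤ K')
    (hφ0 : 0 < φ) (hφ1 : φ ≤ 1 / 8) (hεφ : 2 * ε ≤ φ) (he' : 0 < e₁) (he1 : e₁ ≤ φ / 8)
    (he2 : e₁ ≤ 1 / 64) (hεe : 128 * ε ≤ e₁) (hbτ : 2 * e₁ ≤ b * (τ - R))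
    (hams : b * ms ≤ e₁ / 32)
    (hqμ : (2 * (b * R) + 4) * q ≤ μ / 4) {pf : ℕ → ℝ} {Nf : ℕ → ℕ → ℝ}
    (hpf : ∀ l < r, L l t t - φ * q ≤ pf l)
    (hNf : ∀ l < r, ∀ j ≤ 1, nX r (fun l x => L l x x) (t + -τ * q) (X * q) l -
      (j : ℕ) * (t + -τ * q) ≤ Nf l j) {δ : ℝ} (hδ0 : 0 < δ)
    (hδ1 : (8 * r + 49) * e₁ ≤ δ * R / 4) (hδ2 : el * (2 * (K₀ + τ)) ≤ δ * R / 4)
    (hδ3 : dl ≤ δ / 4) (N₀ : ℕ) :
    ∃ (Ψ : Fm2 (r + 2)) (E₂ r₂ ρ : ℝ) (E rd : ℕ → ℝ), ρ < 1 ∧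
      (∀ i ≤ r, 0 ≤ E i ∧ L i (t + -τ * q) (t + -τ * q) + E i + 3 * K' * q ≤ 1 ∧
        0 ≤ rd i ∧ rd i ≤ ρ) ∧
      PairE S₁ Ψ c r (max D D * max 1 D) ((range (r + 1)).image c) (c (r + 1)) a b R (h * a) δ
        (ℓ * q) N₀ (t + -τ * q) t q (fun i => L i (t + -τ * q) (t + -τ * q))
        (nX r (fun l x => L l x x) (t + -τ * q) (X * q)) (fun x => L (r + 1) x x) pf Nf (e₁ * q)
        E₂ r₂ (L (r + 1) (t + -τ * q) (t + -τ * q)) E rd vn Pn En Rn (D * max 1 D) ∧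
      DcpD Ψ d ((range r).image c) ((range (r + 1)).image c) (c (r + 1)) (D * max 1 D)
        vn (t + -τ * q) En Rn Pn (e₁ * q) := by
  have hq := Rc.q0
  have ht0 := Rc.t0
  have ht1 := Rc.t1
  have htm := Rc.tmc
  have hpos := Rc.pos
  have htn := abs_le.1 Rc.near
  have hcu₁ : ∀ w ∈ G, ∃ rd : ℕ → ℝ, (∀ l < r + 1, 0 ≤ rd l) ∧
      Chn S₁ c 0 (r + 1) w w (L r w w) (fun l => L l w w) rd := fun w hw => by
    obtain ⟨rd, h1, h2⟩ := hcu₀ w hw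
    exact ⟨rd, h1, h2.sub hs₁⟩
  have halt₁ : ∀ w ∈ G, |w - g| ≤ μ → AltC S₁ c r L e₀ ρ₀ π₀ μ w := fun w hw hw' =>
    altC_sub hs₁ (halt₀ w hw hw')
  have ha0 : 0 < a := by linarith only [ha]
  have hb0 : 0 < b := by linarith only [ha0, hab]
  have hτ0 : 0 < τ := by linarith only [hR, hτ]
  have hfl : 0 < (⌊b⌋₊ : ℝ) + 1 - b := by
    have := Nat.lt_floor_add_one b
    linarith only [this]
  have hbra : 0 < b * R := mul_pos hb0 hR
  have hD0 : 0 < pzD R b := by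
    unfold pzD
    have h1 : 0 < R * b + 4 := by
      have := mul_pos hR hb0
      linarith only [this]
    positivity
  have hr0 : (0 : ℝ) ≤ r := Nat.cast_nonneg r
  have hwin : ∀ x : ℝ, (∃ j < N', V' j = x) → t + x * q ∈ G := fun x hx => by
    obtain ⟨j, hj, e⟩ := hx
    rw [← e]
    exact Rc.memG.2 j hj
  have halc : ∀ x : ℝ, (∃ j < N', V' j = x) → AlC S₁ c r D L e₀ μ (t + x * q) := fun x hx => by
    obtain ⟨j, hj, e⟩ := hx
    rw [← e]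
    exact (hlab j hj).1
  have he : 0 < e₁ * q := mul_pos he' hq
  have hεq : 0 < ε * q := mul_pos hε hq
  have hφq : 0 < φ * q := mul_pos hφ0 hq
  have hK50 : 0 < K' := by linarith only [hK5, hτ0, hK₀]
  have hK5q : (τ + K₀ + 2) * q ≤ K' * q := mul_le_mul_of_nonneg_right hK5 hq.le
  have hτq : 0 < τ * q := mul_pos hτ0 hq
  have hK₀q : 0 < K₀ * q := mul_pos hK₀ hq
  have hKq : 0 < K' * q := mul_pos hK50 hq
  have hraq : 0 < R * q := mul_pos hR hq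
  have hbraq : 0 < b * R * q := mul_pos hbra hq
  have hvG : t + -τ * q ∈ G := hwin _ hWv
  have htG : t ∈ G := by
    have h1 := hwin _ hWt
    rwa [zero_mul, add_zero] at h1
  have hvK : |-τ| ≤ K' := by
    rw [abs_neg, abs_of_pos hτ0]
    linarith only [hK5, hK₀]
  have hDK : D ≤ max D D * max 1 D := by
    calc D = D * 1 := (mul_one D).symm
      _ ≤ D * max 1 D := Nat.mul_le_mul_left D (le_max_left 1 D)
      _ = max D D * max 1 D := by rw [max_self]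
  -- the labels at an earlier window
  have hxK : |-(K₀ + 1)| ≤ K' := by
    rw [abs_neg, abs_of_pos (by linarith only [hK₀])]
    linarith only [hK5, hτ0]
  obtain ⟨ph, hph, hAt⟩ := hful S₁ hne₁ hs₁ (t + -(K₀ + 1) * q)
    (by linarith only [ht0, hK5q, hτq, hq]) (by linarith only [htn.2, hq]) (by
      obtain ⟨rk, E', b1, b2, b3, b4, b5, b6, b7, b8, b9, b10⟩ := halt₁ _ (hwin _ hWx)
        (hnear _ hxK)
      exact (halc _ hWx).lb b6 hDK hμ le_rfl (by linarith only [b7]))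
  -- the scale
  obtain ⟨k, hk, hk1, hk2⟩ := pow_near (mul_pos (by linarith only [hK₀, hτ0] :
    0 < K₀ + τ) hq) hk₀
  have hbms : b * ms * q ≤ e₁ / 32 * q := mul_le_mul_of_nonneg_right hams hq.le
  have h4q : 4 * q ≤ μ / 4 := by
    have : 4 * q ≤ (2 * (b * R) + 4) * q := by
      linarith only [hbraq]
    exact this.trans hqμ
  have he2q : e₁ * q ≤ 1 / 64 * q := mul_le_mul_of_nonneg_right he2 hq.le
  have hεeq : 128 * ε * q ≤ e₁ * q := mul_le_mul_of_nonneg_right hεe hq.le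
  -- the base labels
  obtain ⟨Ψe, hΨe⟩ : ∃ Ψe : Fml (r + 2), Ψe = NzE Ψb c r (c (r + 1)) D vn n wv pa₁ pa₂
      (fun _ => e₀ - μ / 2) (fun k => L r (wv k) (wv k) + μ / 4)
      (fun k => L (r + 1) (wv k) (wv k) - pe) := ⟨_, rfl⟩
  rw [← hΨe] at hex
  have hΨes : ∀ (J : ℕ) (F : Fam (r + 2) J) (A B : F.Ω → Prop) (V : Type)
      (z : PtT F → V) (z' : LnT F → V) (G : V → MvPolynomial (Option (Fin (r + 2))) ℝ), Sub B A →
      Ψe J F A V z z' G → Ψe J F B V z z' G := by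
    rw [hΨe]
    exact fun J F A B V z z' G hB hG => NzE.hs hΨs J F A B V z z' G hB hG
  have hΨel : ∀ (J : ℕ) (F : Fam (r + 2) J) (A : F.Ω → Prop) (V : Type) (z : PtT F → V)
      (z' : LnT F → V) (G : V → MvPolynomial (Option (Fin (r + 2))) ℝ), Ψe J F A V z z' G →
      LbOK F ((range (r + 1)).image c) (c (r + 1)) D ⌊En * J⌋₊ J ⌊vn * J⌋₊ ⌊Rn * J⌋₊
        ⌊Pn' * J⌋₊ A z z' G := by
    rw [hΨe]
    intro J F A V z z' G hG
    exact hΨl J F A V z z' G hG.1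
  have hΨ₀l : ∀ (J : ℕ) (F : Fam (r + 2) J) (A : F.Ω → Prop) (V : Type) (z : PtT F → V)
      (z' : LnT F → V) (G : V → MvPolynomial (Option (Fin (r + 2))) ℝ), Sgl Ψe d J F A V z z' G →
      LbOK F ((range (r + 1)).image c) (c (r + 1)) D ⌊En * J⌋₊ J ⌊vn * J⌋₊ ⌊Rn * J⌋₊
        ⌊Pn' * J⌋₊ A z z' G := fun J F A V z z' G hG => hΨel J F A V z z' G hG.1
  have hlv : ∀ e : ℝ, 0 < e → Bas S₁ (fun J F A => ∃ (V₁ : Type) (z : PtT F → V₁)
      (z' : LnT F → V₁) (g : V₁ → ℕ → MvPolynomial (Option (Fin (r + 2))) ℝ),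
      LbX F c 0 (r + 1) D e (fun i => max 0 (L r (t + -τ * q) (t + -τ * q) -
        L i (t + -τ * q) (t + -τ * q))) (t + -τ * q)
        (fun _ => L r (t + -τ * q) (t + -τ * q))
        (fun l => L l (t + -τ * q) (t + -τ * q)) A z z' g) := fun e he => by
    obtain ⟨j, hj, hj'⟩ := hWv
    have h1 := (hlab j hj).2 e he
    rw [hj'] at h1
    exact h1
  have hFN := (hAt k hk).sub hs₁
  -- the slopes on the box
  have h0K : |(0 : ℝ)| ≤ K' := by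
    rw [abs_zero]
    exact hK50.le
  have e0 : t + 0 * q = t := by rw [zero_mul, add_zero]
  have hdv := fun l (hl : l < r + 2) => Rc.dL2 (l := l) hl hvK h0K
  rw [e0] at hdv
  have hCv := halt₁ _ hvG (hnear _ hvK)
  have hbox : ∀ w : ℝ, t + -τ * q ≤ w → w ≤ t → |w - t| ≤ K' * q := fun w h1 h2 => by
    rw [abs_le]
    exact ⟨by linarith only [h1, hK5q, hK₀q, hq], by linarith only [h2, hKq]⟩
  have hdw : ∀ l < r + 2, ∀ w : ℝ, t + -τ * q ≤ w → w ≤ t →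
      |L l w w - L l (t + -τ * q) (t + -τ * q) - Sl l * (w - (t + -τ * q))| ≤ 2 * (ε * q) := by
    intro l hl w h1 h2
    have h3 := abs_le.1 (Rc.dL l hl w (hbox w h1 h2))
    have h4 := abs_le.1 (Rc.dL l hl (t + -τ * q) (hbox _ le_rfl (by linarith only [hτq])))
    have e1 : Sl l * (w - t) = Sl l * (w - (t + -τ * q)) + Sl l * (t + -τ * q - t) := by ring
    rw [e1] at h3
    rw [abs_le]
    exact ⟨by linarith only [h3.1, h4.2], by linarith only [h3.2, h4.1]⟩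
  have hWj' : ∀ k ≤ r, t + jfV r (-τ) X k * q ∈ G := fun k hk => hwin _ (hWj k hk)
  obtain ⟨v, hv⟩ : ∃ v, v = t + -τ * q := ⟨_, rfl⟩
  have hv' : v = t - τ * q := by rw [hv]; ring
  have hroom : ∀ j ≤ r + 1, L j v v + 3 * K' * q < 1 := by
    intro j hj
    have W := Rc.tg (r + 1) (by omega) (by omega)
    have h1 := W.room j hj v (by rw [hv]; exact hbox _ le_rfl (by
      linarith only [hτq]))
    have h2 := W.Eb0
    linarith only [h1, h2]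
  -- the natural labels of the windows `v` and `t`
  obtain ⟨kv, hkv, hkv'⟩ := hwv
  obtain ⟨kt, hkt, hkt'⟩ := hwt
  have c4 : Bas S₁ (fun J F A => ∃ (V : Type) (z : PtT F → V) (z' : LnT F → V)
      (G : V → MvPolynomial (Option (Fin (r + 2))) ℝ),
      NzQ (Sgl Ψe d) c r (c (r + 1)) D D D D vn (t + -τ * q) (pa₁ kv) (pa₂ kv) (e₀ - μ / 2)
        (L r (t + -τ * q) (t + -τ * q) + μ / 4) (L (r + 1) (t + -τ * q) (t + -τ * q) - pe)
        t (pa₁ kt) (pa₂ kt) (e₀ - μ / 2) (L r t t + μ / 4) (L (r + 1) t t - pe)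
        J F A V z z' G) := by
    refine Bas.mono 0 hex ?_
    rintro J - F A ⟨V₀, z₀, z₀', G₀, hG⟩
    have hG' := hG.1
    rw [hΨe] at hG'
    obtain ⟨V, Y₁, Y₂, z, z', Gv, Q₁, y₁, y₁', B₁, Q₂, y₂, y₂', B₂, f, h1⟩ := hG'.2 kv hkv
    obtain ⟨Va, X₁, X₂, za, za', Ga, P₁, x₁, x₁', C₁, P₂, x₂, x₂', C₂, fa, h2⟩ := hG'.2 kt hkt
    beta_reduce at h1 h2
    rw [hkv'] at h1
    rw [hkt'] at h2
    exact ⟨V, z, z', Gv, V₀, Y₁, Y₂, z₀, z₀', G₀, Q₁, y₁, y₁', B₁, Q₂, y₂, y₂', B₂, f, hG, h1,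
      Va, X₁, X₂, za, za', Ga, P₁, x₁, x₁', C₁, P₂, x₂, x₂', C₂, fa, h2⟩
  have hnear' : |t + -τ * q - g| ≤ μ := hnear _ hvK
  rw [← hv] at hdv hCv hdw c4 hlv hvG hnear' hNf hvn ⊢
  obtain ⟨rk, E', b1, b2, b3, b4, b5, b6, b7, b8, b9, b10⟩ := hCv
  have hK1q : (ℓ + 1) * q ≤ K' * q := mul_le_mul_of_nonneg_right hK1 hq.le
  have hK2q : (τ + 3 ^ r * X) * q ≤ K' * q := mul_le_mul_of_nonneg_right hK2 hq.le
  have hK3q : (b * τ + b * R + 2) * q ≤ K' * q := mul_le_mul_of_nonneg_right hK3 hq.le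
  have hX0 : 0 < X := by linarith only [hX2, hbra]
  have hXq0 : 0 < X * q := mul_pos hX0 hq
  have hvt : v ≤ t := by linarith only [hv', hτq]
  have hv0 : 0 ≤ v := by linarith only [hv', ht0, hK5q, hK₀q, hq]
  have hvq : q ≤ v := by linarith only [hv', ht0, hK5q, hK₀q, hq]
  have ht1' : t ≤ 1 := by linarith only [ht1, hKq]
  have hv1 : v ≤ 1 := hvt.trans ht1'
  have hdN := abs_le.1 (hdv (r + 1) (by omega))
  rw [hbE] at hdN
  have eN1 : b * ((-τ - 0) * q) = -(b * τ * q) := by ring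
  rw [eN1] at hdN
  have hL0 : ∀ i ≤ r + 1, 0 ≤ L i v v := fun i hi =>
    hv0.trans (Rc.low_at (by omega) hv0 le_rfl hv1)
  have hE0 : ∀ i ≤ r, 0 ≤ eP r L (e₀ - μ / 2) v i ∧
      L i v v + eP r L (e₀ - μ / 2) v i + 3 * K' * q ≤ 1 := by
    intro i hi
    rw [eP_lt L _ _ hi]
    refine ⟨le_max_left _ _, ?_⟩
    have h1 := hroom i (by omega)
    have h2 := hroom r (by omega)
    rcases max_choice 0 (L r v v - L i v v) with h3 | h3
    · rw [h3]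
      linarith only [h1]
    · rw [h3]
      linarith only [h2]
  have hf : ∀ l, aX r (X * q) l ≤ 3 ^ r * X * q := fun l => by
    unfold aX
    have h1 : (3 : ℝ) ^ (r - 1 - l) ≤ 3 ^ r := pow_le_pow_right₀ (by norm_num) (by omega)
    have h2 := mul_le_mul_of_nonneg_right h1 (mul_pos hX0 hq).le
    linarith only [h2]
  have hf2 : ∀ l, X * q ≤ aX r (X * q) l := fun l => aX_ge (mul_pos hX0 hq).le l
  have hf3 : ∀ l < r, ∀ l' < l, 3 * aX r (X * q) l ≤ aX r (X * q) l' := fun l hl l' hl' => by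
    unfold aX
    have h1 : (3 : ℝ) ^ (r - 1 - l + 1) ≤ 3 ^ (r - 1 - l') :=
      pow_le_pow_right₀ (by norm_num) (by omega)
    rw [pow_succ] at h1
    have h2 := mul_le_mul_of_nonneg_right h1 (mul_pos hX0 hq).le
    linarith only [h2]
  have hXq : (2 * (b * R) + 2) * q ≤ X * q := mul_le_mul_of_nonneg_right hX2 hq.le
  have hℓ2q : (3 ^ r * X + R + 1) * q ≤ ℓ * q := mul_le_mul_of_nonneg_right hℓ2 hq.le
  have hℓ3q : (b * R + R + 1) * q ≤ ℓ * q := mul_le_mul_of_nonneg_right hℓ3 hq.le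
  have hvnv : vn ≤ v := by
    have := mul_nonneg hD0.le hq.le
    linarith only [hvn, this]
  have hVv : R * q + v ≤ t := by
    have := mul_le_mul_of_nonneg_right hτ.le hq.le
    linarith only [this, hv']
  -- the grid windows
  obtain ⟨G', hG'⟩ : ∃ G' : Set ℝ, G' = {w | ∃ k < n, w = wv k} := ⟨_, rfl⟩
  have hGm : ∀ w, w ∈ G' ↔ ∃ k < n, w = wv k := fun w => by rw [hG']; rfl
  have hvG' : v ∈ G' := (hGm v).2 ⟨kv, hkv, by rw [hkv', hv]⟩
  -- the family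
  obtain ⟨Φ, hΦE⟩ : ∃ Φ : FmX (r + 2), Φ = fun J F A V z z' g =>
      LbX F c 0 (r + 2) (max D D * max 1 D) (e₁ * q) (eP r L (e₀ - μ / 2) v) v
        (fun _ => L r v v + μ / 4) (fun i => L i v v) A z z' g ∧
      NzQ (Sgl Ψe d) c r (c (r + 1)) D D D D vn v (pa₁ kv) (pa₂ kv) (e₀ - μ / 2)
        (L r v v + μ / 4) (L (r + 1) v v - pe) t (pa₁ kt) (pa₂ kt) (e₀ - μ / 2)
        (L r t t + μ / 4) (L (r + 1) t t - pe) J F A V z z' (fun y => g y (r + 1)) :=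
    ⟨_, rfl⟩
  have hrows := rows_nz htm hpos (Ψ := PsQ (Sgl Ψe d) c r D (max D D * max 1 D) vn v
      t (pa₁ kv) (pa₂ kv) (e₀ - μ / 2) (L r v v + μ / 4) (L (r + 1) v v - pe)
      (pa₁ kt) (pa₂ kt) (e₀ - μ / 2)
      (L r t t + μ / 4)
      (L (r + 1) t t - pe) (ℓ * q) (e₁ * q)
      (eP r L (e₀ - μ / 2) v) (fun _ => L r v v + μ / 4) (fun i => L i v v)
      (nX r (fun l x => L l x x) v (X * q))) (Φ := Φ)
    (c := c) (r := r) (K := max D D * max 1 D) (K1 := max D D * max 1 D) (D := D) (k := k)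
    hr (sn := fun l x => L l x x) (G := G') (n := nX r (fun l x => L l x x) v (X * q))
    (f := aX r (X * q)) (Sl := Sl) (E := eP r L (e₀ - μ / 2) v)
    (rd := fun _ => L r v v + μ / 4) (v := v) (Q := R * q) (lam := ℓ * q) (ρ := 8 * (e₁ * q))
    (ρ₀ := ms * q) (φ := e₁ * q) (Λ := b) (h := h) (h' := h * a) (δ₁ := 2 * ε * q) (g₀ := q)
    (e := e₁ * q)
    (by
      rw [hΦE]
      rintro J F A V z z' g hg
      exact hg.1)
    (by
      rw [hΦE]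
      rintro J F A V C z z' G₁ G₂ cc ⟨g', h1, h2, h3, h4, h5, h6⟩
      exact ⟨g', ⟨h1, h3 ▸ h4⟩, h2, h3, h5⟩)
    (Ψ₀ := Ψb) (vn := vn) (p₁ := pa₁ kv) (p₂ := pa₂ kv) (eN := e₀ - μ / 2)
    (uN := L r v v + μ / 4) (pN := L (r + 1) v v - pe)
    (fun J F A V z z' G h => ⟨(hΨl J F A V z z' G h).deg, (hΨl J F A V z z' G h).dep,
      (hΨl J F A V z z' G h).cls⟩) hvnv ?_ ?_ ?_ hv0 hvG' hraq.le ?_ (mul_pos hms0 hq)
    (by linarith only [he]) he.le (by linarith only [he]) ?_ ?_ (by rw [hbE]; exact hb0) ?_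
    (fun l _ => rfl) ?_ ?_ ?_ ?_ hq ?_ ?_ ?_ ?_ ?_ ?_ (by linarith only [hεq]) hh1 hFN hel
    (by linarith only [hk1, hv', htn.1]) (by linarith only [hk1, hVv, htn.2, hK₀q, hτq])
    hdl (by rw [hbE]; exact hdlb) (by rw [hbE]; exact hph) le_rfl ?_ ?_ ?_ he ?_ ?_
    (δ := δ * (R * q)) ?_ N₀
  rotate_left
  · -- the natural labels
    intro w hw _ _
    obtain ⟨k', hk', rfl⟩ := (hGm w).1 hw
    refine ⟨pa₁ k', pa₂ k', e₀ - μ / 2, L r (wv k') (wv k') + μ / 4,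
      L (r + 1) (wv k') (wv k') - pe, ?_, ?_⟩
    · show L (r + 1) (wv k') (wv k') - e₁ * q ≤ L (r + 1) (wv k') (wv k') - pe
      linarith only [he, hpe]
    · rw [hΦE, hΨe]
      rintro J F A V z z' g ⟨-, hg⟩
      have hg' := nzq_le (fun J F A V z z' G (h : Sgl _ d J F A V z z' G) => h.1) hg
      exact nzqE_nzq (n := n) hg' hk'
  · show L (r + 1) v v - e₁ * q ≤ L (r + 1) v v - pe
    linarith only [he, hpe]
  · -- the chains
    intro w hw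
    obtain ⟨k', hk', rfl⟩ := (hGm w).1 hw
    obtain ⟨rd, h1, h2⟩ := hcu₁ _ (hwG k' hk')
    exact ⟨_, rd, fun i _ hi => h1 i (by omega), h2⟩
  · -- the gaps
    intro x hx1 hx2
    obtain ⟨k', w1, w2⟩ := hwy ((x - t) / q) (by
      rw [le_div_iff₀ hq]
      linarith only [hx1, hv']) (by
      rw [div_le_iff₀ hq]
      linarith only [hx2, hVv])
    refine ⟨wv k', (hGm _).2 ⟨k', w1, rfl⟩, ?_⟩
    have e1 : t + (x - t) / q * q = x := by
      field_simp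
      ring
    rw [e1] at w2
    exact w2
  · linarith only [hK1q, ht1, hvt, hq]
  · -- the slopes
    intro l hl
    have h1 : 0 ≤ Sl l ∧ Sl l ≤ b := by
      rcases Nat.lt_trichotomy l r with h1 | h1 | h1
      · have h2 := Rc.kd l (by omega)
        rw [hκ l h1] at h2
        have h3 : Sl l = 1 := h2
        rw [h3]
        exact ⟨zero_le_one, by linarith only [ha, hab]⟩
      · rw [h1, haE]
        exact ⟨ha0.le, hab⟩
      · have h2 : l = r + 1 := by omega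
        rw [h2, hbE]
        exact ⟨hb0.le, le_rfl⟩
    refine ⟨h1.1, h1.2, fun w hw1 hw2 => (hdw l (by omega) w hw1 ?_).trans ?_⟩
    · linarith only [hw2, hVv]
    · linarith only [hεeq, hεq]
  · show 8 * (e₁ * q) + 2 * (e₁ * q) ≤ L (r + 1) v v
    have h1 : v ≤ L (r + 1) v v := Rc.low_at (by omega) hv0 le_rfl hv1
    linarith only [h1, hvq, he2q, hq]
  · intro l hl l' hl'
    have h1 := hf3 l hl l' hl'
    have h2 := hf2 l
    have e1 : b * (R * q) = b * R * q := by ring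
    rw [e1]
    linarith only [h1, h2, hXq, he2q, hbraq, hq]
  · intro l hl
    have h2 := hf2 l
    have e1 : b * (R * q) = b * R * q := by ring
    rw [e1]
    linarith only [h2, hXq, he2q, hbraq, hq]
  · intro l hl
    have h1 := hf l
    linarith only [h1, hℓ2q, he2q, hq]
  · have e1 : b * (R * q) = b * R * q := by ring
    rw [e1]
    linarith only [hℓ3q, he2q, hq]
  · -- the exponents
    intro i hi
    rcases Nat.lt_or_ge i (r + 1) with h1 | h1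
    · have h2 := hE0 i (by omega)
      have h3 := hL0 i (by omega)
      exact ⟨h2.1, by linarith only [h2.2, h3, hKq]⟩
    · have h2 : i = r + 1 := by omega
      rw [h2, eP_last]
      have h3 := hL0 (r + 1) le_rfl
      exact ⟨by linarith only [b3, b4, hμ], by linarith only [b8, h3, hμ]⟩
  · intro i hi
    show 0 ≤ L r v v + μ / 4 ∧ L r v v + μ / 4 + q ≤ 1
    have h3 := hL0 r (by omega)
    exact ⟨by linarith only [h3, hμ], by linarith only [b6, hρ₀, hμ, h4q, hq]⟩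
  · intro i hi
    have h1 := (hE0 i (by omega)).2
    have h2 := hf i
    show L i v v + aX r (X * q) i + eP r L (e₀ - μ / 2) v i + q ≤ 1
    linarith only [h1, h2, hK2q, hτq, hq, hK5q, hK₀q]
  · have h1 := hroom r (by omega)
    rw [haE, eP_lt L _ _ le_rfl, sub_self, max_self]
    show L r v v + a * (R * q) + 0 + q ≤ 1
    have e1 : a * (R * q) ≤ b * R * q := by
      have := mul_le_mul_of_nonneg_right hab hraq.le
      linarith only [this]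
    linarith only [h1, hK3q, e1, hKq, hq, mul_pos (mul_pos hb0 hτ0) hq]
  · rw [hbE, eP_last]
    show L (r + 1) v v + b * (R * q) + (e₀ - μ / 2) + q ≤ 1
    have e1 : b * (R * q) = b * R * q := by ring
    rw [e1]
    linarith only [b8, hqμ, hbraq, hq, hμ]
  · -- the raw rows
    intro Q' hQ1 hQ2
    rw [hbE] at hQ2
    have e1 : b * (R * q) = b * R * q := by ring
    rw [e1] at hQ2
    have hbτq : b * R * q ≤ b * τ * q := by
      exact mul_le_mul_of_nonneg_right (mul_le_mul_of_nonneg_left hτ.le hb0.le) hq.le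
    have hbτ0 : ε * q * 2 ≤ b * τ * q := by
      have h1 : τ - R ≤ τ := by linarith only [hR]
      have h2 := mul_le_mul_of_nonneg_right (hbτ.trans (mul_le_mul_of_nonneg_left h1 hb0.le)) hq.le
      linarith only [h2, hεeq, hεq]
    have h1 := Rc.raw (by omega) hε (x := L (r + 1) t t - L (r + 1) v v) (y := Q')
      ?_ hQ1 ?_ ?_ ?_
    · have e2 : L (r + 1) t t - (L (r + 1) t t - L (r + 1) v v) = L (r + 1) v v := by ring
      change RawN S₁ ((range (r + 1)).image c) (c (r + 1))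
        (L (r + 1) t t - (L (r + 1) t t - L (r + 1) v v)) Q' h (2 * ε * q) at h1
      rw [e2] at h1
      exact h1
    · linarith only [hdN.2, hbτq, hεeq, he2q, hbraq, hεq, hbτ0]
    · linarith only [hdN.1, hK3q, hbraq, hεeq, he2q, hq]
    · linarith only [hQ2, hK3q, mul_pos (mul_pos hb0 hτ0) hq, hq]
    · have := hL0 (r + 1) le_rfl
      show L (r + 1) t t - L (r + 1) v v ≤ L (r + 1) t t
      linarith only [this]
  · rw [eP_last]
    have h1 := min_le_right (8 * (e₁ * q) / 8) (q / 2)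
    linarith only [h1, h4q, hμ, hq]
  · have h1 := min_le_right (8 * (e₁ * q) / 8) (q / 2)
    show L r v v + μ / 4 + min (8 * (e₁ * q) / 8) (q / 2) ≤ ρ₀
    linarith only [h1, h4q, hμ, b6, hq]
  · have h1 := min_le_right (8 * (e₁ * q) / 8) (q / 2)
    show π₀ ≤ L (r + 1) v v - min (8 * (e₁ * q) / 8) (q / 2)
    linarith only [h1, h4q, hμ, b7, hq]
  · refine le_min (le_of_eq ?_) (by linarith only [he2q, hq])
    ring
  · rw [hbE]
    exact mul_le_mul_of_nonneg_left hab hh0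
  · -- the errors
    have h1 := mul_le_mul_of_nonneg_right hδ1 hq.le
    have h2 := mul_le_mul_of_nonneg_right hδ2 hq.le
    have h3 := mul_le_mul_of_nonneg_right hδ3 (mul_pos hR hq).le
    have h4 := mul_le_mul_of_nonneg_left hk2 hel
    have h6 : 0 < δ * R * q := mul_pos (mul_pos hδ0 hR) hq
    have h7 : a * ms * q ≤ b * ms * q :=
      mul_le_mul_of_nonneg_right (mul_le_mul_of_nonneg_right hab hms0.le) hq.le
    rw [haE, hbE]
    linarith only [h1, h2, h3, h4, h6, h7, hbms, hεeq, hεq, he]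
  -- the context and the value
  have hnatp := hlv (e₁ * q) he
  have hbτq := mul_le_mul_of_nonneg_right hbτ hq.le
  have hkw : wv kv = v := by rw [hkv', hv]
  have PE := paire_coren (D := D) hr Rc hκ (a := a) (b := b) (ρ := R) (τ := τ)
    (ta := t) hR hb0 hτ0 (by linarith only [hτq])
    le_rfl hcu₁ (Ψ₀ := Sgl Ψe d) (Sgl.hs hΨes) hΨ₀l (Pn := Pn)
    (e := e₁ * q) (E := eP r L (e₀ - μ / 2) v) (rd := fun _ => L r v v + μ / 4)
    (K := max D D * max 1 D) (h' := h * a) (N₀ := N₀) (X := X) (φ := φ) (kf := kf) (ℓ := ℓ)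
    (pf := pf) (Nf := Nf) (δ := δ) (by rw [← hv]; exact c4) ?_ le_rfl ?_ ?_ ?_ ?_ ?_ ?_ hPn hPn1
    hvn0 (by rw [← hv]; exact hvn) hD0.le htG hWj' hX1 hXv hX3 hkf1 hkf2 hℓ1 hK1 hK2
    (by linarith only [hK5, hK₀]) hφ0 hφ1 hεφ he (by
      have := mul_le_mul_of_nonneg_right he1 hq.le
      linarith only [this]) (by linarith only [he2q]) hpf (by rw [← hv]; exact hNf) hδ0
    (by rw [← hv]; rw [haE, hbE] at hrows; exact hrows.1)
    (by rw [← hv]; rw [haE, hbE] at hrows; exact hrows.2)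
  · rw [← hv] at PE
    have hL0r : 0 ≤ L r v v := hL0 r (by omega)
    refine ⟨_, _, _, L r v v + μ / 4, _, _, ?_, fun i hi => ⟨?_, ?_, ?_, ?_⟩, PE,
      psq_dcpD hΨel hPn hvnv hv1⟩
    · linarith only [b6, hρ₀, hμ]
    · exact (hE0 i hi).1
    · exact (hE0 i hi).2
    · linarith only [hL0r, hμ]
    · exact le_rfl
  · -- the labels of the chain
    rw [← hv]
    refine Bas.mono 0 hnatp ?_
    rintro J - F A ⟨V₁, z, z', g', h1⟩
    have hJ0 : (0 : ℝ) ≤ J := Nat.cast_nonneg J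
    refine ⟨V₁, z, z', g', fun i hi1 hi2 => ?_⟩
    refine (h1 i hi1 hi2).mono (Finset.Subset.refl _) hDK (Nat.floor_le_floor
      (mul_le_mul_of_nonneg_right ?_ hJ0)) (Nat.floor_le_floor
      (mul_le_mul_of_nonneg_right ?_ hJ0)) le_rfl
    · rw [eP_lt L _ _ (by omega)]
    · show L r v v + e₁ * q ≤ L r v v + μ / 4 + e₁ * q
      linarith only [hμ]
  · rw [eP_last]
    linarith only [he]
  · show L r v v + μ / 4 ≤ L r v v + μ / 4 + e₁ * q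
    linarith only [he]
  · rw [← hv]
    linarith only [he, hpe]
  · rw [← hv]
    linarith only [hdN.2, hbτq, he, hεq, hεeq, hpe]
  · intro i hi
    have h2 := hE0 i hi.le
    have h3 := hL0 i (by omega)
    linarith only [h2.2, h3, hKq]
  · intro i hi
    show 0 ≤ L r v v + μ / 4
    linarith only [hL0 r (by omega), hμ]

end Pool.CR99
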