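import Pool.Agent.H99.D2.Fzh
import Pool.Agent.H99.D2.Fzi

/-!
# The natural jets of the label `d J F` at a record

`nat_recd`: `nat_fd` at a record.
-/

set_option autoImplicit false

namespace Pool.PN18

open Finset Real MvPolynomial
open Pool.Agent.H49.Ent Pool.Agent.H32.Dense Pool.STK Pool.KA Pool.KSAT Pool.K2S Pool.PB Pool.GEN
open Pool.S6C Pool.RCD Pool.LA91 Pool.OWN68 Pool.AJW Pool.AJX Pool.CHT Pool.PKG
open Pool.ALT (Fml NzQ NzF NzL)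
open Pool.CR99 (NzE)

section

variable {m : ℕ} {S : PCl m} {al : ℝ} {g₀ : ℝ → ℝ} {P : List (Fin m) × Fin m → ℝ → ℝ → ℝ}
    {θ : ℝ} {P₂ : ℕ → List (Fin m) × Fin m → ℝ → ℝ → ℝ} {θ₂ Eb e₂ : ℕ → ℝ}
    {c : ℕ → Fin m} {Pt : ℝ → ℝ → ℝ} {rt : ℝ → ℝ} {h K₀ g : ℝ} {L T : ℕ → ℝ → ℝ → ℝ}
    {Sl : ℕ → ℝ} {κ : ℕ → Kg} {G : Set ℝ} {S₀ N : ℕ} {A V : ℕ → ℝ} {S₂ N' : ℕ} {V' : ℕ → ℝ}
    {K' ε q t : ℝ}

/-- **The natural jets of the label** `d J F` at a record. -/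
theorem nat_recd (K r : ℕ) {b τ : ℝ} (hτ1 : 1 ≤ τ)
    (Rc : RecG S al g₀ P θ P₂ θ₂ Eb e₂ c Pt rt h K₀ g L T Sl κ G S₀ N A V S₂ N' V' K' ε q t)
    (hr : 1 ≤ r) (hrm : r + 1 < m) (hκ : ∀ l < r, κ l = .one)
    (hch : ChG S c (r + 1) (fun l x => L l x x) G) {X φ kf ℓ e' : ℝ}
    (hφ : 0 < φ) (hφ8 : φ ≤ 1 / 8) (hφX : 32 * (r + 1) * φ ≤ X)
    (hX : 2 * ((K + 8) * τ) + 8 ≤ X) (hkf : 3 ^ r * X ≤ kf) (hℓ : kf + τ ≤ ℓ)
    (hℓK : ℓ ≤ K') (hK1 : τ + 3 ^ r * X + 2 ≤ K') (hεφ : 2 * ε ≤ φ)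
    (hε : 0 ≤ ε) (htG : t ∈ G) (hvG : ∀ k ≤ r, t + jfV r (-τ) X k * q ∈ G) {pf : ℕ → ℝ}
    {Nf : ℕ → ℕ → ℝ} (hpf : ∀ l < r, L l t t - φ * q ≤ pf l) (hNf : NfP r L X q t τ Nf)
    (he' : 0 < e') (he1 : e' ≤ φ / 16) {Ψ₀ : Fml m} {d : ∀ (J : ℕ) (F : Fam m J), LbD F} {D : ℕ}
    {vn En Rn Pn Pn' : ℝ}
    (hΨl : ∀ (J : ℕ) (F : Fam m J) (A : F.Ω → Prop) (V : Type) (z : PtT F → V)
      (z' : LnT F → V) (G : V → MvPolynomial (Option (Fin m)) ℝ), Ψ₀ J F A V z z' G →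
      LbOK F ((range (r + 1)).image c) (c (r + 1)) D ⌊En * J⌋₊ J ⌊vn * J⌋₊ ⌊Rn * J⌋₊
        ⌊Pn' * J⌋₊ A z z' G) (hPn : Pn - e' * q ≤ Pn') (hvn : vn ≤ t)
    (hPn0 : 2 * (e' * q) ≤ Pn) (hPn1 : L (r + 1) t t + (τ + 1) * q ≤ Pn + X * q) {n : ℕ}
    {wv pa₁ pa₂ ea ua pa : ℕ → ℝ}
    (hex : Bas S (fun J F A => ∃ (V : Type) (z : PtT F → V) (z' : LnT F → V)
      (G : V → MvPolynomial (Option (Fin m)) ℝ),
      Sgl (NzE Ψ₀ c r (c (r + 1)) D vn n wv pa₁ pa₂ ea ua pa) d J F A V z z' G))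
    {k : ℕ} (hk : k < n) (hw : wv k = t) (hpt : L (r + 1) t t - e' * q ≤ pa k)
    {η : ℝ} (hη : 0 < η) {j : ℕ} (he3 : e' ≤ η / 32) :
    F1 S (fun J F => ptr F J) (vg t) (fun _ F => F.T)
      (qJets m c 0 r 1 (fun _ _ => t) (fun l _ => pf l) Nf)
      (qD m d (c (r + 1)) j vn (L (r + 1) t t - j * t)) (e' * q) (η * q) := by
  have hq := Rc.q0
  have ht0 := Rc.t0
  have ht1 := Rc.t1
  have htm := Rc.tmc
  have hK0 : (0 : ℝ) ≤ K := Nat.cast_nonneg K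
  have hτ0 : 0 < τ := by linarith only [hτ1]
  have hKτ : 0 ≤ K * τ := mul_nonneg hK0 hτ0.le
  have hX' : 2 * (K * τ + 8 * τ) + 8 ≤ X := by
    have e1 : 2 * (((K : ℝ) + 8) * τ) + 8 = 2 * (K * τ + 8 * τ) + 8 := by ring
    rw [← e1]
    exact hX
  have hX0 : 0 < X := by linarith only [hX', hKτ, hτ0]
  have h3X : 0 < 3 ^ r * X := by positivity
  have U : JfU r K (-τ) X φ ℓ kf :=
    { vv0 := by linarith only [hτ0]
      φ0 := hφ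
      XK := by
        have e1 : 2 * (((K : ℝ) + 6) * - -τ) = 2 * (K * τ + 6 * τ) := by ring
        rw [e1]
        linarith only [hX', hτ0]
      φX := hφX
      kfX := hkf
      lamk := by linarith only [hℓ] }
  have J := Rc.jf hκ (by omega) U htG hvG (by linarith only [hK1]) hℓK hεφ
  have hA := J.near_n htm hch (pf := pf) (Nf := Nf) hpf hNf
  have hφq : 0 < φ * q := mul_pos hφ hq
  have hφq8 : φ * q ≤ 1 / 8 * q := mul_le_mul_of_nonneg_right hφ8 hq.le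
  have he : 0 < e' * q := mul_pos he' hq
  have he1q : e' * q ≤ φ / 16 * q := mul_le_mul_of_nonneg_right he1 hq.le
  have hηq : 0 < η * q := mul_pos hη hq
  have he3q : e' * q ≤ η / 32 * q := mul_le_mul_of_nonneg_right he3 hq.le
  have hKq : (τ + 3 ^ r * X + 2) * q ≤ K' * q := mul_le_mul_of_nonneg_right hK1 hq.le
  have h3Xq : 0 < 3 ^ r * X * q := mul_pos h3X hq
  have hτq : 0 < τ * q := mul_pos hτ0 hq
  have ht1' : t ≤ 1 := by linarith only [ht1, hKq, h3Xq, hτq, hq]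
  have hNt0 : t ≤ L (r + 1) t t := Rc.low_at hrm (by linarith only [ht0, hKq, h3Xq, hτq, hq])
    le_rfl ht1'
  have hXq : (2 * (K * τ + 8 * τ) + 8) * q ≤ X * q := mul_le_mul_of_nonneg_right hX' hq.le
  have hKτq : 0 ≤ K * τ * q := mul_nonneg hKτ hq.le
  refine nat_fd htm hr J hch hA he (by linarith only [he1q]) (by linarith only [he1q]) hΨl hPn hvn
    hex hk hw hηq hpt (le_min hPn0 ?_) ?_ (by linarith only [he3q])
  · linarith only [hNt0, ht0, hKq, h3Xq, hτq, he1q, hφq8, hq]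
  · rw [← min_add_add_right]
    exact le_min (by linarith only [hPn1, hφq8, hq]) (by linarith only [hXq, hφq8, hKτq, hτq, hq])

end

end Pool.PN18
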