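import Pool.Agent.H99.D2.Fzh
import Pool.Agent.H82.FZM.Nat
import Pool.Agent.H82.FZM.Fzm

/-!
# A stage at a record, over one label for each family

`stage_recd`: a stage at a record, the slope of the place smaller, over the label `d J F`.
-/

set_option autoImplicit false

namespace Pool.PN18

open Finset Real MvPolynomial
open Pool.Agent.H49.Ent Pool.Agent.H32.Dense Pool.STK Pool.KA Pool.KSAT Pool.K2S Pool.PB Pool.GEN
open Pool.S6C Pool.RCD Pool.LA91 Pool.OWN68 Pool.AJW Pool.AJX Pool.CHT Pool.PKG Pool.ALT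
open Pool.LPK12 (Ip2)
open Pool.CR99 (PairE NzE pairf_rec)

/-- **A stage at a record**, the slope of the place smaller, over the label `d J F`. -/
theorem stage_recd {r D : ℕ} (hr : 1 ≤ r) {a b x x' y y' τ τ' R h η' : ℝ} (ha1 : 1 < a)
    (hab : a < b) (hx0 : 0 < x') (hxx : x' < x) (hxa : x ≤ a) (hy0 : 0 < y')
    (hyy : y' < y) (hyb : y ≤ b) (hR0 : 0 < R) (hRa : a * R = (a - x') * τ')
    (hRb : b * R = (b - y') * τ') (hτ1 : 1 ≤ τ') (hxτ : 1 ≤ x' * τ') (hyτ : 1 ≤ y' * τ')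
    (hUu : ∀ i i' : ℕ, x' < i → (i : ℝ) ≤ x → x' < i' → (i' : ℝ) ≤ x → i = i')
    (hUn : ∀ j j' : ℕ, y' < j → (j : ℝ) ≤ y → y' < j' → (j' : ℝ) ≤ y → j = j')
    (hT1 : ∀ i : ℕ, i ≤ max D D * max 1 D + 2 → x < i → (i - x') * τ' + 2 ≤ (i - x) * τ)
    (hT2 : ∀ j : ℕ, j ≤ max D D * max 1 D + 2 → y < j → (j - y') * τ' + 2 ≤ (j - y) * τ)
    (hT3 : ∀ i : ℕ, (i : ℝ) ≤ x' → (i - x') * τ' + 2 ≤ 0)
    (hT4 : ∀ j : ℕ, (j : ℝ) ≤ y' → (j - y') * τ' + 2 ≤ 0)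
    (hh : 0 < h) (hh1 : h ≤ 1) (hη' : 0 < η') :
    ∃ δ : ℝ, 0 < δ ∧ ∃ N₀ : ℕ, 0 < N₀ ∧
    ∀ {S : PCl (r + 2)} {al : ℝ} {g₀ : ℝ → ℝ} {P : List (Fin (r + 2)) × Fin (r + 2) → ℝ → ℝ → ℝ}
      {θ : ℝ} {P₂ : ℕ → List (Fin (r + 2)) × Fin (r + 2) → ℝ → ℝ → ℝ} {θ₂ Eb e₂ : ℕ → ℝ}
      {c : ℕ → Fin (r + 2)} {Pt : ℝ → ℝ → ℝ} {rt : ℝ → ℝ} {K₀ g : ℝ} {L T : ℕ → ℝ → ℝ → ℝ}
      {Sl : ℕ → ℝ} {κ : ℕ → Kg} {G : Set ℝ} {S₀ N : ℕ} {A V : ℕ → ℝ} {S₂ N' : ℕ} {V' : ℕ → ℝ}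
      {K' ε q t : ℝ} {S₁ : PCl (r + 2)} (_ : S₁.Ne)
      (_ : ∀ (τ : ℝ) (J : ℕ) (F : Fam (r + 2) J) (A : F.Ω → Prop), S₁.St τ J F A → S.St τ J F A)
      (_ : RecG S₁ al g₀ P θ P₂ θ₂ Eb e₂ c Pt rt h K₀ g L T Sl κ G S₀ N A V S₂ N' V' K' ε q t)
      (_ : ∀ l < r, κ l = .one) (_ : Sl r = a) (_ : Sl (r + 1) = b) (_ : 0 < ε) (_ : 0 < K₀)
      (_ : ∀ w ∈ G, ∃ rd : ℕ → ℝ, (∀ l < r + 1, 0 ≤ rd l) ∧
        Chn S c 0 (r + 1) w w (L r w w) (fun l => L l w w) rd) {e₀ ρ₀ π₀ μ : ℝ} (_ : 0 < μ)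
      (_ : ρ₀ + μ ≤ 1) (_ : ∀ w ∈ G, |w - g| ≤ μ → AltC S c r L e₀ ρ₀ π₀ μ w)
      (_ : ∀ x : ℝ, |x| ≤ K' → |t + x * q - g| ≤ μ)
      (_ : LabR r D S₁ c L e₀ μ q t N' V') {el dl : ℝ} {k₀ : ℕ} (_ : 0 ≤ el) (_ : 0 ≤ dl)
      (_ : dl ≤ b * Real.log 2)
      (_ : ∀ S' : PCl (r + 2), S'.Ne → SubC S' S → ∀ w₀ : ℝ, 0 < w₀ → w₀ < g →
        AltE S' ((range (r + 1)).image c) (c (r + 1)) (max D D * max 1 D) e₀ ρ₀ π₀ w₀ →
        ∃ φ : ℝ, b * Real.log 2 - dl ≤ φ ∧ ∀ k ≥ k₀, AltAt S ((range (r + 1)).image c)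
          ((range r).image c) (c (r + 1)) (max D D * max 1 D) e₀ ρ₀ π₀ (fun w => L (r + 1) w w) g
          φ el k)
      (_ : (K₀ + τ') * q ≤ (1 / 2) ^ k₀)
      -- the label `d J F`, with natural labels of the windows `wv k`
      {Ψb : Fml (r + 2)} {vn En Rn Pn Pn' pe : ℝ}
      (_ : ∀ (J : ℕ) (F : Fam (r + 2) J) (A B : F.Ω → Prop) (V : Type)
        (z : PtT F → V) (z' : LnT F → V) (G : V → MvPolynomial (Option (Fin (r + 2))) ℝ),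
        Sub B A → Ψb J F A V z z' G → Ψb J F B V z z' G)
      (_ : ∀ (J : ℕ) (F : Fam (r + 2) J) (A : F.Ω → Prop) (V : Type) (z : PtT F → V)
        (z' : LnT F → V) (G : V → MvPolynomial (Option (Fin (r + 2))) ℝ), Ψb J F A V z z' G →
        LbOK F ((range (r + 1)).image c) (c (r + 1)) D ⌊En * J⌋₊ J ⌊vn * J⌋₊ ⌊Rn * J⌋₊
          ⌊Pn' * J⌋₊ A z z' G)
      {n : ℕ} {wv pa₁ pa₂ : ℕ → ℝ} {d : ∀ (J : ℕ) (F : Fam (r + 2) J), LbD F}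
      (_ : Bas S₁ (fun J F A => ∃ (V : Type) (z : PtT F → V) (z' : LnT F → V)
        (G : V → MvPolynomial (Option (Fin (r + 2))) ℝ),
        Sgl (NzE Ψb c r (c (r + 1)) D vn n wv pa₁ pa₂ (fun _ => e₀ - μ / 2)
          (fun k => L r (wv k) (wv k) + μ / 4) (fun k => L (r + 1) (wv k) (wv k) - pe)) d
          J F A V z z' G))
      (_ : ∀ k < n, wv k ∈ G) {ms : ℝ} (_ : 0 < ms)
      (_ : ∀ y, -τ' ≤ y → y ≤ 0 → ∃ k < n, |wv k - (t + y * q)| ≤ ms * q)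
      (_ : ∃ k < n, wv k = t + -τ' * q) (_ : ∃ k < n, wv k = t) (_ : 0 ≤ vn)
      (_ : vn + pzD R b * q ≤ t + -τ' * q) {X φ kf ℓ e' : ℝ} (_ : pe ≤ e' * q / 2)
      (_ : Pn - e' * q ≤ Pn') (_ : L (r + 1) vn vn - q ≤ Pn)
      -- the windows
      (_ : ∃ j < N', V' j = -τ') (_ : ∃ j < N', V' j = 0) (_ : ∃ j < N', V' j = -(K₀ + 1))
      (_ : ∀ k ≤ r, ∃ j < N', V' j = jfV r (-τ') X k)
      -- the numbers
      (_ : 2 * ((a + b + (max D D * max 1 D : ℕ) + 8) * τ') + 8 ≤ X) (_ : 32 * (r + 1) * φ ≤ X)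
      (_ : 3 ^ r * X ≤ kf) (_ : b * τ' + 2 * (r + 1) * φ + 1 ≤ kf) (_ : kf + τ' ≤ ℓ)
      (_ : 3 ^ r * X + τ' + 1 ≤ ℓ) (_ : b * τ' + τ' + 1 ≤ ℓ) (_ : ℓ + 1 ≤ K')
      (_ : τ' + 3 ^ r * X + 2 ≤ K') (_ : 2 * (a + b) * τ' + 2 ≤ K') (_ : τ' + K₀ + 2 ≤ K')
      (_ : 0 < φ) (_ : φ ≤ 1 / 8) (_ : 2 * ε ≤ φ) (_ : 0 < e') (_ : e' ≤ φ / 16)
      (_ : e' ≤ 1 / 64) (_ : 128 * ε ≤ e') (_ : b * ms ≤ e' / 32)
      (_ : (2 * (b * τ') + 4) * q ≤ μ / 4) {pf : ℕ → ℝ} {Nf : ℕ → ℕ → ℝ}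
      (_ : ∀ l < r, L l t t - φ * q ≤ pf l) (_ : NfP r L X q t τ' Nf)
      (_ : 2 * (e' * q) ≤ Pn) (_ : L (r + 1) t t + (τ' + 1) * q ≤ Pn + X * q)
      (_ : L (r + 1) (t + -τ' * q) (t + -τ' * q) + (b * τ' + 1) * q ≤ Pn + X * q)
      (_ : (8 * r + 49) * e' ≤ δ * R / 4) (_ : el * (2 * (K₀ + τ')) ≤ δ * R / 4)
      (_ : dl ≤ δ / 4) (_ : e' ≤ δ * R / 64)
      -- the mutual information
      (_ : ∀ (Ψ : Fm2 (r + 2)) (E₂ r₂ : ℝ) (E rd : ℕ → ℝ), (∀ i ≤ r, 0 ≤ E i ∧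
          L i (t + -τ' * q) (t + -τ' * q) + E i + 3 * K' * q ≤ 1) →
        PairE S₁ Ψ c r (max D D * max 1 D) ((range (r + 1)).image c) (c (r + 1)) a b R (h * a) δ
          (ℓ * q) N₀ (t + -τ' * q) t q (fun i => L i (t + -τ' * q) (t + -τ' * q))
          (nX r (fun l x => L l x x) (t + -τ' * q) (X * q)) (fun x => L (r + 1) x x) pf Nf
          (e' * q) E₂ r₂ (L (r + 1) (t + -τ' * q) (t + -τ' * q)) E rd vn Pn En Rn
          (D * max 1 D) →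
        DcpD Ψ d ((range r).image c) ((range (r + 1)).image c) (c (r + 1)) (D * max 1 D) vn
          (t + -τ' * q) En Rn Pn (e' * q) →
        IpC S₁ Ψ c r (max D D * max 1 D) L q t a b x x' y y' τ' R φ pf Nf (e' * q) δ)
      (_ : StU S₁ c r (max D D * max 1 D) L q t pf Nf (e' * q) x τ (δ * R / 2))
      (_ : StD S₁ c r (max D D * max 1 D) L q t d vn pf Nf (e' * q) y τ (δ * R / 2)),
      StU S₁ c r (max D D * max 1 D) L q t pf Nf (e' * q) x' τ' η' ∧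
        StD S₁ c r (max D D * max 1 D) L q t d vn pf Nf (e' * q) y' τ' η' := by
  have ha : 0 < a := by linarith only [ha1]
  have hb : 0 < b := ha.trans hab
  obtain ⟨δ, hδ, N₀, hN₀, H⟩ := stage_numd (max D D * max 1 D) r (h' := h * a) ha hab hx0 hxx hxa
    hy0 hyy hyb hR0 hRa hRb hτ1 hxτ hyτ hUu hUn hT1 hT2 hT3 hT4 (mul_pos hh ha)
    (mul_le_of_le_one_left ha.le hh1) hη'
  refine ⟨δ, hδ, N₀, hN₀, ?_⟩
  intro S al g₀ P θ P₂ θ₂ Eb e₂ c Pt rt K₀ g L T Sl κ G S₀ N A V S₂ N' V' K' ε q t S₁ hne₁ hs₁ Rc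
    hκ hSa hSb hε hK₀ hcu₀ e₀ ρ₀ π₀ μ hμ hρ₀ halt₀ hnear hlab el dl k₀ hel hdl hdlb hful hk₀ Ψb vn
    En Rn Pn Pn' pe hΨs hΨl n wv pa₁ pa₂ d hex hwG ms hms0 hwy hwv hwt hvn0 hvn X φ kf ℓ e' hpe hPn
    hPn1 hWv hWt hWx hWj hX hX3 hkf1 hkf2 hℓ1 hℓ2 hℓ3 hK1 hK2 hK3 hK5 hφ0 hφ1 hεφ he' he1 he2 hεe
    hams hqμ pf Nf hpf hNf hPn0 hPnt hPnv hδ1 hδ2 hδ3 he3 hIp SU SD
  have hq := Rc.q0
  have hτ0 : 0 < τ' := by linarith only [hτ1]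
  have haR : 0 < a * R := mul_pos ha hR0
  have hbR : 0 < b * R := mul_pos hb hR0
  have hRτ : R < τ' := by
    have h1 : a * R < a * τ' := by
      rw [hRa]
      linarith only [hxτ]
    exact lt_of_mul_lt_mul_left h1 ha.le
  have haRT : a * R ≤ a * τ' := mul_le_mul_of_nonneg_left hRτ.le ha.le
  have hbRT : b * R ≤ b * τ' := mul_le_mul_of_nonneg_left hRτ.le hb.le
  have haT : 0 < a * τ' := mul_pos ha hτ0
  have hbT : 0 < b * τ' := mul_pos hb hτ0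
  have hKn : (0 : ℝ) ≤ (max D D * max 1 D : ℕ) := Nat.cast_nonneg _
  have hKT : 0 ≤ ((max D D * max 1 D : ℕ) : ℝ) * τ' := mul_nonneg hKn hτ0.le
  have hr0 : (1 : ℝ) ≤ r := by exact_mod_cast hr
  have hX' : 2 * (a * τ' + b * τ' + (max D D * max 1 D : ℕ) * τ' + 8 * τ') + 8 ≤ X := by
    have e1 : 2 * ((a + b + (max D D * max 1 D : ℕ) + 8) * τ') + 8 =
        2 * (a * τ' + b * τ' + (max D D * max 1 D : ℕ) * τ' + 8 * τ') + 8 := by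
      ring
    rw [← e1]
    exact hX
  have hK3' : 2 * (a * τ') + 2 * (b * τ') + 2 ≤ K' := by
    have e1 : 2 * (a + b) * τ' + 2 = 2 * (a * τ') + 2 * (b * τ') + 2 := by ring
    rw [← e1]
    exact hK3
  have hδR : 0 < δ * R := mul_pos hδ hR0
  obtain ⟨Ψ, E₂, r₂, ρ, E, rd, hρ, hE, PE, DD⟩ := pairf_rec (D := D) hr hne₁ hs₁ Rc hκ hSa hSb ha1
    hab.le hR0 hRτ hh.le hh1 hε hK₀ hcu₀ hμ hρ₀ halt₀ hnear hlab hel hdl hdlb hful hk₀ hΨs hΨl hex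
    hwG hms0 hwy hwv hwt hvn0 hvn hpe hPn hPn1 hWv hWt hWx (X := X) (φ := φ) (kf := kf) (ℓ := ℓ)
    hWj (by linarith only [hX', haT, hbT, hKT, hτ0])
    (by linarith only [hX', hbRT, haT, hKT, hτ0])
    (by linarith only [hX', hX3, hbRT, haT, hbT, hKT, hτ0]) hX3 hkf1
    (by linarith only [hkf2, hbRT]) hℓ1 (by linarith only [hℓ2, hRτ])
    (by linarith only [hℓ3, hbRT, hRτ]) hK1 (by linarith only [hK2])
    (by linarith only [hK3', hbRT, haT]) hK5 hφ0 hφ1 hεφ he' (by linarith only [he1, hφ0]) he2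
    hεe (by linarith only [hRb, hyτ, he2]) hams (by
      have h1 : (2 * (b * R) + 4) * q ≤ (2 * (b * τ') + 4) * q :=
        mul_le_mul_of_nonneg_right (by linarith only [hbRT]) hq.le
      exact h1.trans hqμ) hpf hNf hδ hδ1 hδ2 hδ3 N₀
  have hch : ChG S₁ c (r + 1) (fun l x => L l x x) G := Pool.LA91.ChG.mk fun w hw => by
    obtain ⟨rd, h1, h2⟩ := hcu₀ w hw
    exact ⟨_, rd, h1, h2.sub hs₁⟩
  have hwin : ∀ x : ℝ, (∃ j < N', V' j = x) → t + x * q ∈ G := fun x hx => by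
    obtain ⟨j, hj, e⟩ := hx
    rw [← e]
    exact Rc.memG.2 j hj
  have htG : t ∈ G := by
    have h1 := hwin _ hWt
    rwa [zero_mul, add_zero] at h1
  have hvG : ∀ k ≤ r, t + jfV r (-τ') X k * q ∈ G := fun k hk => hwin _ (hWj k hk)
  -- the near path
  have U : JfU r (max D D * max 1 D) (-τ') X φ ℓ kf :=
    { vv0 := by linarith only [hτ0]
      φ0 := hφ0
      XK := by
        have e1 : 2 * ((((max D D * max 1 D : ℕ) : ℝ) + 6) * - -τ') =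
            2 * ((max D D * max 1 D : ℕ) * τ' + 6 * τ') := by ring
        rw [e1]
        linarith only [hX', haT, hbT, hτ0]
      φX := hX3
      kfX := hkf1
      lamk := by linarith only [hℓ1] }
  have J := Rc.jf hκ (by omega) U htG hvG (by linarith only [hK2])
    (by linarith only [hK1]) hεφ
  have heq : 0 < e' * q := mul_pos he' hq
  have hφq : 0 < φ * q := mul_pos hφ0 hq
  have hφ1q : φ * q ≤ 1 / 8 * q := mul_le_mul_of_nonneg_right hφ1 hq.le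
  have hbRq : b * (R * q) ≤ b * τ' * q := by
    have h1 := mul_le_mul_of_nonneg_right hbRT hq.le
    linarith only [h1]
  have h3X : 0 < 3 ^ r * X := by
    have : 0 < X := by linarith only [hX', haT, hbT, hKT, hτ0]
    positivity
  have he32 : e' ≤ δ * R / 32 := by linarith only [he3, hδR]
  obtain ⟨kt, hkt, hkt'⟩ := hwt
  refine H Rc hr (by omega) hκ hSa hSb hch (X := X) (φ := φ) (kf := kf) (ℓ := ℓ) (e' := e') hφ0
    hφ1 hX3 hX hkf1 hℓ1 (by linarith only [hK1]) hK2 (by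
      have e4 : 2 * (a + b) * R = 2 * (a * R) + 2 * (b * R) := by ring
      rw [e4]
      linarith only [hK3', haRT, hbRT]) hεφ hε.le htG hvG J le_rfl hpf hNf hNf he' he1 he32
    (m₁ := 3 * K' * q) (ρ := ρ) ?_ hρ hE PE DD hPn0 ?_ ?_ ?_ ?_ SU SD
  · refine mul_lt_mul_of_pos_right ?_ hq
    linarith only [hK2, hτ0, hK5, hK₀]
  · linarith only [hPnv, hbRq, hφ1q, hq]
  · have h1 : (b * τ' + 1) * q ≤ X * q :=
      mul_le_mul_of_nonneg_right (by linarith only [hX', haT, hbT, hKT, hτ0]) hq.le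
    linarith only [h1, hbRq, hφ1q, hq]
  · exact hIp Ψ E₂ r₂ E rd (fun i hi => ⟨(hE i hi).1, (hE i hi).2.1⟩) PE DD
  · intro j hj1 hjb hjK
    refine nat_recd (b := b) (max D D * max 1 D) r hτ1 Rc hr (by omega) hκ hch (X := X) (φ := φ) (kf := kf)
      (ℓ := ℓ) hφ0 hφ1 hX3 (by
        have e1 : 2 * ((((max D D * max 1 D : ℕ) : ℝ) + 8) * τ') + 8 =
            2 * ((max D D * max 1 D : ℕ) * τ' + 8 * τ') + 8 := by ring
        rw [e1]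
        linarith only [hX', haT, hbT]) hkf1 hℓ1 (by linarith only [hK1]) hK2 hεφ hε.le htG hvG hpf
      hNf he' he1 hΨl hPn ?_ hPn0 hPnt hex hkt hkt' ?_ (η := δ * R / 2) (by linarith only [hδR])
      (by linarith only [he3])
    · have h1 : 0 ≤ pzD R b * q := by
        refine mul_nonneg ?_ hq.le
        unfold pzD
        have hfl : 0 < (⌊b⌋₊ : ℝ) + 1 - b := by
          have := Nat.lt_floor_add_one b
          linarith only [this]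
        have h1 : 0 < R * b + 4 := by
          have := mul_pos hR0 hb
          linarith only [this]
        positivity
      have h2 := mul_pos hτ0 hq
      linarith only [h1, h2, hvn]
    · show L (r + 1) t t - e' * q ≤ L (r + 1) (wv kt) (wv kt) - pe
      rw [hkt']
      linarith only [hpe, heq]

end Pool.PN18
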